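import Pool.Agent.TH999.CNM.Sv

set_option autoImplicit false
set_option maxHeartbeats 4000000

/-! # The window near the maximum of `b (x ^ 4 - m ^ 4 b ^ 2)`, general modulus -/

namespace Pool.Agent.TH999.CNM

open Finset Pool.Agent.TH827.CN

/-- survivors of the sieve are squarefree -/
lemma good_squarefree' (x b Q t : ℕ) (hbx : Q * (b + Q * t) ≤ x ^ 2)
    (hQ64 : ∀ p : ℕ, p.Prime → p ≤ 64 → p ∣ Q)
    (hQsq : ∀ p : ℕ, p.Prime → p ∣ Q → p ^ 2 ∣ Q)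
    (hxQ : ∀ p : ℕ, p.Prime → p ∣ x → ¬ p ∣ Q) (hbQ : ∀ p : ℕ, p.Prime → p ∣ Q → ¬ p ^ 2 ∣ b)
    (hg : Good' x b Q t) :
    Squarefree ((b + Q * t) * (x ^ 2 - Q * (b + Q * t)) * (x ^ 2 + Q * (b + Q * t))) := by
  rw [Nat.squarefree_iff_prime_squarefree]
  intro p hp hd
  rw [← pow_two] at hd
  by_cases hpQ : p ∣ Q
  · have h5 : p ∣ Q * (b + Q * t) := Dvd.dvd.mul_right hpQ _
    have n3 : ¬ p ∣ x ^ 2 + Q * (b + Q * t) := by
      intro h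
      have h6 : p ∣ x ^ 2 := (Nat.dvd_add_left h5).mp h
      exact hxQ p hp (hp.dvd_of_dvd_pow h6) hpQ
    have n2 : ¬ p ∣ x ^ 2 - Q * (b + Q * t) := by
      intro h
      have h6 : p ∣ x ^ 2 := by
        have := Nat.dvd_add h h5
        rwa [Nat.sub_add_cancel hbx] at this
      exact hxQ p hp (hp.dvd_of_dvd_pow h6) hpQ
    have c3 : Nat.Coprime (p ^ 2) (x ^ 2 + Q * (b + Q * t)) :=
      Nat.Coprime.pow_left 2 ((hp.coprime_iff_not_dvd).mpr n3)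
    have c2 : Nat.Coprime (p ^ 2) (x ^ 2 - Q * (b + Q * t)) :=
      Nat.Coprime.pow_left 2 ((hp.coprime_iff_not_dvd).mpr n2)
    have d1 := c3.dvd_of_dvd_mul_right hd
    have d2 := c2.dvd_of_dvd_mul_right d1
    apply hbQ p hp hpQ
    exact (Nat.dvd_add_left (Dvd.dvd.mul_right (hQsq p hp hpQ) t)).mp d2
  · have h64 : 64 < p := by
      by_contra hcon
      push Not at hcon
      exact hpQ (hQ64 p hp hcon)
    obtain ⟨h1, h2, h3, h4⟩ := hg p hp hpQ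
    have cQ : Nat.Coprime (p ^ 2) Q := Nat.Coprime.pow_left 2 ((hp.coprime_iff_not_dvd).mpr hpQ)
    have hd' : p ^ 2 ∣ (Q * (b + Q * t)) * (x ^ 2 - Q * (b + Q * t)) *
        (x ^ 2 + Q * (b + Q * t)) := by
      have e : (Q * (b + Q * t)) * (x ^ 2 - Q * (b + Q * t)) * (x ^ 2 + Q * (b + Q * t)) =
        Q * ((b + Q * t) * (x ^ 2 - Q * (b + Q * t)) * (x ^ 2 + Q * (b + Q * t))) := by ring
      rw [e]
      exact Dvd.dvd.mul_left hd _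
    rcases sq_dvd_three p x (Q * (b + Q * t)) hp (by omega) hbx hd' with h | h | h | h
    · exact h1 (cQ.dvd_of_dvd_mul_left h)
    · exact h2 h
    · exact h3 h
    · apply h4
      refine ⟨h.1, ?_⟩
      rcases (hp.dvd_mul).mp h.2 with h5 | h5
      · exact absurd h5 hpQ
      · exact h5

/-- `b (x ^ 2 - m ^ 2 b) (x ^ 2 + m ^ 2 b)` is the area of a rational right triangle -/
lemma congruent' (x b m : ℕ) (hx : 0 < x) (hm : 0 < m) (hb : 0 < b) (hbx : m ^ 2 * b < x ^ 2) :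
    ∃ r s t : ℚ, 0 < r ∧ 0 < s ∧ 0 < t ∧ r ^ 2 + s ^ 2 = t ^ 2 ∧
      ((b * (x ^ 2 - m ^ 2 * b) * (x ^ 2 + m ^ 2 * b) : ℕ) : ℚ) = r * s / 2 := by
  obtain ⟨r, s, t, hr, hs, ht, h1, h2⟩ := congruent x (m ^ 2 * b) hx (by positivity) hbx
  have hmq : (0 : ℚ) < m := by exact_mod_cast hm
  refine ⟨r / m, s / m, t / m, by positivity, by positivity, by positivity, ?_, ?_⟩
  · field_simp
    exact h1
  · have e : ((b * (x ^ 2 - m ^ 2 * b) * (x ^ 2 + m ^ 2 * b) : ℕ) : ℚ) * (m : ℚ) ^ 2 =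
        ((m ^ 2 * b * (x ^ 2 - m ^ 2 * b) * (x ^ 2 + m ^ 2 * b) : ℕ) : ℚ) := by
      push_cast
      ring
    rw [h2] at e
    have e2 : r / m * (s / m) / 2 * (m : ℚ) ^ 2 = r * s / 2 := by
      field_simp
    have hm2 : ((m : ℚ) ^ 2) ≠ 0 := by positivity
    exact mul_right_cancel₀ hm2 (e.trans e2.symm)

/-- the set of squarefree congruent numbers in a class in an interval -/
def CSet' (q a : ℕ) (X H : ℝ) : Set ℕ := {n : ℕ | X ≤ n ∧ (n : ℝ) ≤ X + H ∧ Squarefree n ∧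
  n ≡ a [MOD q] ∧
  ∃ r s t : ℚ, 0 < r ∧ 0 < s ∧ 0 < t ∧ r ^ 2 + s ^ 2 = t ^ 2 ∧ (n : ℚ) = r * s / 2}

open Classical in
/-- the core statement with all numerical hypotheses -/
theorem core' (m b0 Q : ℕ) (hQm : Q = m ^ 2) (hm0 : 0 < m)
    (hm64 : ∀ p : ℕ, p.Prime → p ≤ 64 → p ∣ m) (hb0 : Squarefree b0)
    (ξ : ℝ) (x T D0 M J : ℕ) (hξ0 : 0 < ξ) (hxx0 : x ≡ 1 [MOD Q]) (hξx : ξ + 1 ≤ x)
    (hκ : 128 * ((x : ℝ) - ξ) ≤ x) (hx8 : 8 * Q ≤ x)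
    (hW : ((Q : ℝ) ^ 2 * (T + 1)) ^ 2 ≤ (x : ℝ) ^ 3)
    (hD : 0 < D0) (hT : T ≤ D0 ^ 2)
    (h1 : 48 * x ^ 2 < D0 ^ 4) (h2 : 4 * (Q ^ 2 * T) < D0 ^ 2)
    (hM : 512 * (Q ^ 2 * T) * (2 ^ J * D0) ^ 2 ≤ 3 * x ^ 2 * M)
    (h3 : Q ^ 2 * T ≤ 2 * (2 ^ J * D0))
    (hS : (∑ p ∈ x.primeFactors.filter (fun p => 64 < p), (1 : ℝ) / p) ≤ 1 / 16)
    (hrest : 3 * ((D0 : ℝ) + (J * ((M + 2) * D0) + (2 * x ^ 2) / (2 ^ J * D0) ^ 2 : ℕ)) +
      x.primeFactors.card ≤ T / 4) :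
    ∃ A : Finset ℕ, (T : ℝ) / 2 ≤ A.card ∧ ∀ n ∈ A, n ∈ CSet' Q b0 (2 * ξ ^ 6 / (3 * √3) / Q)
      (6 * (x ^ 2 / √3) * √(2 * (x - ξ) * x ^ 3) * (Q ^ 2 * (T + 1)) / Q) := by
  have hQ0 : 0 < Q := by rw [hQm]; positivity
  have hQr : (0 : ℝ) < Q := by exact_mod_cast hQ0
  have hQr1 : (1 : ℝ) ≤ Q := by exact_mod_cast hQ0
  have hQ64 : ∀ p : ℕ, p.Prime → p ≤ 64 → p ∣ Q := by
    intro p hp hp64
    rw [hQm]
    exact Dvd.dvd.pow (hm64 p hp hp64) (by norm_num)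
  have hQsq : ∀ p : ℕ, p.Prime → p ∣ Q → p ^ 2 ∣ Q := by
    intro p hp hpQ
    rw [hQm] at hpQ ⊢
    exact pow_dvd_pow_of_dvd (hp.dvd_of_dvd_pow hpQ) 2
  have hxQ : ∀ p : ℕ, p.Prime → p ∣ x → ¬ p ∣ Q := by
    intro p hp hpx hpQ
    have e : x ≡ 1 [MOD p] := hxx0.of_dvd hpQ
    have e2 : (1 : ℕ) ≡ 0 [MOD p] := e.symm.trans ((Nat.modEq_zero_iff_dvd).mpr hpx)
    exact hp.one_lt.ne' (Nat.dvd_one.mp ((Nat.modEq_zero_iff_dvd).mp e2))
  have hx0 : (0 : ℝ) < x := by linarith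
  have hxN : 0 < x := by omega
  obtain ⟨hs1, hs2⟩ := sqrt3_bounds
  have hs0 : (0 : ℝ) < √3 := by positivity
  have hratio : 127 * (x : ℝ) ≤ 128 * ξ := by linarith
  have hr : 3 * (x : ℝ) ^ 5 ≤ 4 * ξ ^ 5 := by
    have e1 : (127 * (x : ℝ)) ^ 5 ≤ (128 * ξ) ^ 5 := pow_le_pow_left₀ (by positivity) hratio 5
    have e2 : (127 : ℝ) ^ 5 * (x : ℝ) ^ 5 ≤ 128 ^ 5 * ξ ^ 5 := by
      calc (127 : ℝ) ^ 5 * (x : ℝ) ^ 5 = (127 * (x : ℝ)) ^ 5 := by ring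
        _ ≤ (128 * ξ) ^ 5 := e1
        _ = _ := by ring
    have h0 : (0 : ℝ) ≤ (x : ℝ) ^ 5 := by positivity
    have e3 : (3 : ℝ) * 128 ^ 5 ≤ 4 * 127 ^ 5 := by norm_num
    nlinarith
  obtain ⟨β, hβ0, hβB, hup, hlow, hwin⟩ := interval x ξ hξ0 hξx hr
  set B : ℝ := (x : ℝ) ^ 2 / √3 with hB
  have hBup : B ≤ 0.6 * (x : ℝ) ^ 2 := by
    rw [hB, div_le_iff₀ hs0]
    nlinarith [sq_nonneg (x : ℝ)]
  have hBlow : (x : ℝ) ^ 2 / 2 ≤ B := by
    rw [hB, div_le_div_iff₀ (by norm_num) hs0]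
    nlinarith [sq_nonneg (x : ℝ)]
  have hBβ : 0 ≤ B - β := by linarith
  have hWB : (Q : ℝ) ^ 2 * (T + 1) ≤ B - β :=
    abs_le_of_sq_le_sq' (hW.trans hlow) hBβ |>.2
  have hβlow : 3 * (x : ℝ) ^ 2 / 8 ≤ β := by
    have e1 : (B - β) ^ 2 ≤ ((x : ℝ) ^ 2 / 8) ^ 2 := by
      calc (B - β) ^ 2 ≤ 2 * (x - ξ) * (x : ℝ) ^ 3 := hup
        _ ≤ x / 64 * (x : ℝ) ^ 3 := by
          apply mul_le_mul_of_nonneg_right (by linarith) (by positivity)
        _ = ((x : ℝ) ^ 2 / 8) ^ 2 := by ring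
    have e2 := (abs_le_of_sq_le_sq' e1 (by positivity)).2
    linarith
  -- the starting point
  obtain ⟨b, hb1, hb2, hb3⟩ : ∃ b : ℕ, β ≤ Q * b ∧ (Q : ℝ) * b < β + Q ^ 2 ∧ b ≡ b0 [MOD Q] := by
    set m : ℕ := ⌈β / Q⌉₊ with hm
    have hβQ0 : 0 ≤ β / Q := by positivity
    have hm1 : β / Q ≤ m := Nat.le_ceil _
    have hm2 : (m : ℝ) < β / Q + 1 := Nat.ceil_lt_add_one hβQ0
    -- the residue of `b0 - m` mod `Q`
    set r : ℕ := (b0 + (Q - m % Q)) % Q with hr'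
    have hrQ : r < Q := Nat.mod_lt _ hQ0
    refine ⟨m + r, ?_, ?_, ?_⟩
    · push_cast
      have h5 : (0 : ℝ) ≤ r := Nat.cast_nonneg _
      rw [div_le_iff₀ hQr] at hm1
      have h6 : 0 ≤ (Q : ℝ) * r := by positivity
      linarith
    · push_cast
      have h5 : (r : ℝ) + 1 ≤ Q := by exact_mod_cast hrQ
      have h6 : (m : ℝ) + r < β / Q + Q := by linarith
      have h7 : (Q : ℝ) * (m + r) < Q * (β / Q + Q) := mul_lt_mul_of_pos_left h6 hQr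
      have h8 : (Q : ℝ) * (β / Q + Q) = β + Q ^ 2 := by
        field_simp
      linarith
    · have hmQ : m % Q < Q := Nat.mod_lt _ hQ0
      have e1 : m + r ≡ m % Q + (b0 + (Q - m % Q)) [MOD Q] := by
        apply Nat.ModEq.add (Nat.mod_modEq m Q).symm
        rw [hr']
        exact Nat.mod_modEq _ _
      have e2 : m % Q + (b0 + (Q - m % Q)) = b0 + Q := by omega
      rw [e2] at e1
      exact e1.trans (by simp [Nat.ModEq])
  have hbQ : ∀ p : ℕ, p.Prime → p ∣ Q → ¬ p ^ 2 ∣ b := by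
    intro p hp hpQ hd
    have e1 : b ≡ b0 [MOD p ^ 2] := hb3.of_dvd (hQsq p hp hpQ)
    have e2 : p ^ 2 ∣ b0 := (Nat.modEq_zero_iff_dvd).mp
      (e1.symm.trans ((Nat.modEq_zero_iff_dvd).mpr hd))
    rw [pow_two] at e2
    exact (Nat.squarefree_iff_prime_squarefree.mp hb0) p hp e2
  have hbT : (Q : ℝ) * b + Q ^ 2 * T ≤ B := by
    have : (Q : ℝ) ^ 2 * (T + 1) = Q ^ 2 * T + Q ^ 2 := by ring
    linarith
  have hbTn : ((Q * b + Q ^ 2 * T : ℕ) : ℝ) ≤ 0.6 * (x : ℝ) ^ 2 := by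
    push_cast
    linarith
  have hx8' : (8 : ℝ) * Q ≤ x := by exact_mod_cast hx8
  have hx1 : (8 : ℝ) ≤ x := by linarith
  have hx2r : (64 : ℝ) ≤ (x : ℝ) ^ 2 := by
    nlinarith
  have hxx : (x : ℝ) ≤ (x : ℝ) ^ 2 := by nlinarith
  have hb3' : Q * b + Q ^ 2 * T ≤ x ^ 2 := by
    have : ((Q * b + Q ^ 2 * T : ℕ) : ℝ) ≤ ((x ^ 2 : ℕ) : ℝ) := by
      push_cast at hbTn ⊢
      linarith
    exact_mod_cast this
  have hb3'' : Q * b + Q ^ 2 * T < x ^ 2 := by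
    have : ((Q * b + Q ^ 2 * T : ℕ) : ℝ) < ((x ^ 2 : ℕ) : ℝ) := by
      push_cast at hbTn ⊢
      linarith
    exact_mod_cast this
  have h3x : (3 * x ^ 2 : ℕ) ≤ 8 * (Q * b) := by
    have : ((3 * x ^ 2 : ℕ) : ℝ) ≤ ((8 * (Q * b) : ℕ) : ℝ) := by
      push_cast
      linarith
    exact_mod_cast this
  have h8Q : 8 * Q ≤ x ^ 2 := by
    have : ((8 * Q : ℕ) : ℝ) ≤ ((x ^ 2 : ℕ) : ℝ) := by
      push_cast
      linarith
    exact_mod_cast this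
  have hb1' : x ^ 2 ≤ 8 * (Q * (b - 1)) := by
    rw [Nat.mul_sub_one]
    omega
  have hb0' : 0 < b := by
    rcases Nat.eq_zero_or_pos b with h | h
    · rw [h, mul_zero] at h3x
      have e2 : 64 ≤ x ^ 2 := by exact_mod_cast hx2r
      omega
    · exact h
  have hb2' : x ^ 2 ≤ 8 * (x ^ 2 - Q * b - Q ^ 2 * T) := by
    have e1 : 8 * (Q * b + Q ^ 2 * T) ≤ 7 * x ^ 2 := by
      have : ((8 * (Q * b + Q ^ 2 * T) : ℕ) : ℝ) ≤ ((7 * x ^ 2 : ℕ) : ℝ) := by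
        push_cast at hbTn ⊢
        nlinarith
      exact_mod_cast this
    omega
  have hcount := good_count' x b Q T D0 M J hQ64 hQsq hxQ hbQ hQ0 hD hT hxN hb1' hb2' hb3' h1 h2
    hM h3
  set G := (range T).filter (fun t => Good' x b Q t) with hG
  have hGcard : (T : ℝ) / 2 ≤ G.card := by
    have hT0 : (0 : ℝ) ≤ T := Nat.cast_nonneg _
    have e1 : (T : ℝ) * (∑ p ∈ x.primeFactors.filter (fun p => 64 < p), (1 : ℝ) / p) ≤
        T * (1 / 16) := mul_le_mul_of_nonneg_left hS hT0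
    have e2 : 3 * ((T : ℝ) * (2 / 65) + D0 +
        (J * ((M + 2) * D0) + (2 * x ^ 2) / (2 ^ J * D0) ^ 2 : ℕ)) =
        3 * ((T : ℝ) * (2 / 65)) + 3 * ((D0 : ℝ) + (J * ((M + 2) * D0) +
          (2 * x ^ 2) / (2 ^ J * D0) ^ 2 : ℕ)) := by ring
    rw [e2] at hcount
    linarith
  -- the numbers
  set F : ℕ → ℕ := fun t => (b + Q * t) * (x ^ 2 - Q * (b + Q * t)) * (x ^ 2 + Q * (b + Q * t))
    with hF
  have hexp : ∀ t, Q * (b + Q * t) = Q * b + Q ^ 2 * t := fun t => by ring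
  have hmonoT : ∀ t, t < T → Q ^ 2 * t + Q ^ 2 ≤ Q ^ 2 * T := by
    intro t ht
    calc Q ^ 2 * t + Q ^ 2 = Q ^ 2 * (t + 1) := by ring
      _ ≤ Q ^ 2 * T := Nat.mul_le_mul_left _ ht
  have hQ2pos : 0 < Q ^ 2 := by positivity
  have hlt' : ∀ t, t < T → Q * (b + Q * t) < x ^ 2 := by
    intro t ht
    have := hmonoT t ht
    rw [hexp]
    omega
  have hFr : ∀ t, t < T → ((F t : ℕ) : ℝ) = ((Q : ℝ) * b + Q ^ 2 * t) * ((x : ℝ) ^ 4 -
      ((Q : ℝ) * b + Q ^ 2 * t) ^ 2) / Q := by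
    intro t ht
    have := hlt' t ht
    rw [hF]
    simp only
    push_cast [Nat.cast_sub this.le]
    field_simp
    ring
  have hrange : ∀ t, t < T → β ≤ (Q : ℝ) * b + Q ^ 2 * t ∧ (Q : ℝ) * b + Q ^ 2 * t ≤ B ∧
      (Q : ℝ) * b + Q ^ 2 * t - β ≤ Q ^ 2 * (T + 1) := by
    intro t ht
    have h5 : ((Q ^ 2 * t + Q ^ 2 : ℕ) : ℝ) ≤ ((Q ^ 2 * T : ℕ) : ℝ) := by
      exact_mod_cast hmonoT t ht
    push_cast at h5
    have h6 : (0 : ℝ) ≤ (Q : ℝ) ^ 2 * t := by positivity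
    have h7 : (0 : ℝ) < (Q : ℝ) ^ 2 := by positivity
    refine ⟨by linarith, by linarith, ?_⟩
    have : (Q : ℝ) ^ 2 * (T + 1) = Q ^ 2 * T + Q ^ 2 := by ring
    linarith
  have hinj : Set.InjOn F G := by
    have key : ∀ s ∈ G, ∀ t ∈ G, s < t → F s ≠ F t := by
      intro s hs t ht hst heq
      have hs' := mem_range.mp (mem_filter.mp hs).1
      have ht' := mem_range.mp (mem_filter.mp ht).1
      have h5 : ((F s : ℕ) : ℝ) = ((F t : ℕ) : ℝ) := by rw [heq]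
      rw [hFr s hs', hFr t ht'] at h5
      rw [div_left_inj' hQr.ne'] at h5
      have hstr : (s : ℝ) < t := by exact_mod_cast hst
      have h7 : (0 : ℝ) < (Q : ℝ) ^ 2 := by positivity
      have h8 : (Q : ℝ) ^ 2 * s < Q ^ 2 * t := mul_lt_mul_of_pos_left hstr h7
      have h6 := mono x ((Q : ℝ) * b + Q ^ 2 * s) ((Q : ℝ) * b + Q ^ 2 * t) hx0 (by positivity)
        (by linarith) (hrange t ht').2.1
      linarith
    intro s hs t ht heq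
    rcases lt_trichotomy s t with h | h | h
    · exact absurd heq (key s hs t ht h)
    · exact h
    · exact absurd heq.symm (key t ht s hs h)
  refine ⟨G.image F, ?_, ?_⟩
  · rw [card_image_of_injOn hinj]
    exact hGcard
  · intro n hn
    obtain ⟨t, ht, rfl⟩ := mem_image.mp hn
    have ht' := mem_range.mp (mem_filter.mp ht).1
    have hgood := (mem_filter.mp ht).2
    have hlt := hlt' t ht'
    obtain ⟨q1, q2, q3⟩ := hrange t ht'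
    obtain ⟨w1, w2⟩ := hwin _ q1 q2
    refine ⟨?_, ?_, ?_, ?_, ?_⟩
    · rw [hFr t ht']
      exact div_le_div_of_nonneg_right w1 hQr.le
    · rw [hFr t ht', ← add_div]
      apply div_le_div_of_nonneg_right _ hQr.le
      refine w2.trans ?_
      have e1 : B - β ≤ √(2 * (x - ξ) * (x : ℝ) ^ 3) := Real.le_sqrt_of_sq_le hup
      have e2 : 6 * B * (B - β) * ((Q : ℝ) * b + Q ^ 2 * t - β) ≤
          6 * B * √(2 * (x - ξ) * (x : ℝ) ^ 3) * (Q ^ 2 * (T + 1)) := by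
        have hB0 : 0 ≤ B := by linarith [sq_nonneg (x : ℝ)]
        apply mul_le_mul _ q3 (by linarith) (by positivity)
        exact mul_le_mul_of_nonneg_left e1 (by positivity)
      linarith
    · exact good_squarefree' x b Q t hlt.le hQ64 hQsq hxQ hbQ hgood
    · -- the residue class
      have e : ((F t : ℕ) : ZMod Q) = ((b0 : ℕ) : ZMod Q) := by
        rw [hF]
        simp only
        push_cast [Nat.cast_sub hlt.le]
        rw [(ZMod.natCast_eq_natCast_iff _ _ _).mpr hxx0,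
          (ZMod.natCast_eq_natCast_iff _ _ _).mpr hb3, ZMod.natCast_self]
        push_cast
        ring
      exact (ZMod.natCast_eq_natCast_iff _ _ _).mp e
    · have hlt2 : m ^ 2 * (b + Q * t) < x ^ 2 := by
        rw [← hQm]
        exact hlt
      have := congruent' x (b + Q * t) m hxN hm0 (by omega) hlt2
      rw [← hQm] at this
      exact this

end Pool.Agent.TH999.CNM
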