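import Pool.Agent.TH827.CN.Final

set_option autoImplicit false
set_option maxHeartbeats 4000000

/-! # Sieving three linear forms by squares of primes in a short window, general modulus -/

namespace Pool.Agent.TH999.CNM

open Finset Pool.Agent.TH827.CN

/-- the greatest common divisor condition -/
lemma gcd_bad' (x b Q T : ℕ) (hQ : ∀ p : ℕ, p.Prime → p ∣ x → ¬ p ∣ Q) (S : Finset ℕ)
    (hS : ∀ t ∈ S, t < T)
    (hS2 : ∀ t ∈ S, ∃ p : ℕ, p.Prime ∧ 64 < p ∧ p ∣ x ∧ p ∣ b + Q * t) (hx : x ≠ 0) :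
    (S.card : ℝ) ≤ T * (∑ p ∈ x.primeFactors.filter (fun p => 64 < p), (1 : ℝ) / p) +
      x.primeFactors.card := by
  classical
  have hcov : S ⊆ (x.primeFactors.filter (fun p => 64 < p)).biUnion (fun p =>
      S.filter (fun t => p ∣ b + Q * t)) := by
    intro t ht
    obtain ⟨p, hp, hp64, hpx, hpb⟩ := hS2 t ht
    rw [mem_biUnion]
    exact ⟨p, mem_filter.mpr ⟨Nat.mem_primeFactors.mpr ⟨hp, hpx, hx⟩, hp64⟩,
      mem_filter.mpr ⟨ht, hpb⟩⟩
  have h1 : S.card ≤ ∑ p ∈ x.primeFactors.filter (fun p => 64 < p),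
      (S.filter (fun t => p ∣ b + Q * t)).card := (card_le_card hcov).trans card_biUnion_le
  have h2 : (S.card : ℝ) ≤ ∑ p ∈ x.primeFactors.filter (fun p => 64 < p),
      ((T : ℝ) * (1 / p) + 1) := by
    calc (S.card : ℝ) ≤ ((∑ p ∈ x.primeFactors.filter (fun p => 64 < p),
        (S.filter (fun t => p ∣ b + Q * t)).card : ℕ) : ℝ) := by exact_mod_cast h1
      _ = ∑ p ∈ x.primeFactors.filter (fun p => 64 < p),
        ((S.filter (fun t => p ∣ b + Q * t)).card : ℝ) := by push_cast; rfl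
      _ ≤ _ := by
        apply sum_le_sum
        intro p hp
        rw [mem_filter] at hp
        have hpp := Nat.prime_of_mem_primeFactors hp.1
        have e2 := res_card p T hpp.pos (S.filter (fun t => p ∣ b + Q * t))
          (fun t ht => hS t (mem_filter.mp ht).1) (by
            intro s hs t ht
            have hs1 := (mem_filter.mp hs).2
            have ht1 := (mem_filter.mp ht).2
            have h3 : (b + Q * s) ≡ (b + Q * t) [MOD p] := by
              rw [Nat.ModEq, Nat.mod_eq_zero_of_dvd hs1, Nat.mod_eq_zero_of_dvd ht1]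
            have h4 : Q * s ≡ Q * t [MOD p] := Nat.ModEq.add_left_cancel' b h3
            have hcop : Nat.gcd p Q = 1 := (Nat.Prime.coprime_iff_not_dvd hpp).mpr
              (hQ p hpp (Nat.dvd_of_mem_primeFactors hp.1))
            exact Nat.ModEq.cancel_left_of_coprime hcop h4)
        have e3 : ((T / p : ℕ) : ℝ) ≤ (T : ℝ) * (1 / p) := by
          refine Nat.cast_div_le.trans (le_of_eq ?_)
          rw [mul_one_div]
        calc ((S.filter (fun t => p ∣ b + Q * t)).card : ℝ) ≤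
              ((T / p + 1 : ℕ) : ℝ) := by exact_mod_cast e2
          _ = ((T / p : ℕ) : ℝ) + 1 := by push_cast; rfl
          _ ≤ (T : ℝ) * (1 / p) + 1 := by linarith
  rw [sum_add_distrib, ← mul_sum] at h2
  have h3 : (∑ _p ∈ x.primeFactors.filter (fun p => 64 < p), (1 : ℝ)) ≤ x.primeFactors.card := by
    rw [sum_const, nsmul_eq_mul, mul_one]
    exact_mod_cast card_le_card (filter_subset _ _)
  linarith

/-- choice of `x` in a progression with few small prime factors `> 64` -/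
lemma choose_x' (x1 Q K B : ℕ) (hQ : ∀ p : ℕ, p.Prime → p ∣ x1 → ¬ p ∣ Q) (hK : 0 < K)
    (hB : x1 + Q * K ≤ B) (hx1 : 0 < x1) :
    ∃ k, k < K ∧ (∑ p ∈ (x1 + Q * k).primeFactors.filter (fun p => 64 < p), (1 : ℝ) / p) ≤
      2 / 65 + (1 + Real.log B) / K := by
  classical
  have hKr : (0 : ℝ) < K := by exact_mod_cast hK
  by_contra hcon
  push Not at hcon
  have h1 : (K : ℝ) * (2 / 65 + (1 + Real.log B) / K) < ∑ k ∈ range K,
      ∑ p ∈ (x1 + Q * k).primeFactors.filter (fun p => 64 < p), (1 : ℝ) / p := by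
    have := sum_lt_sum_of_nonempty (s := range K) (nonempty_range_iff.mpr (by omega))
      (fun k hk => hcon k (mem_range.mp hk))
    rwa [sum_const, card_range, nsmul_eq_mul] at this
  have h2 : ∀ k ∈ range K, ∑ p ∈ (x1 + Q * k).primeFactors.filter (fun p => 64 < p),
      (1 : ℝ) / p ≤ ∑ p ∈ Ioo 64 (B + 1), if p.Prime ∧ p ∣ x1 + Q * k then (1 : ℝ) / p else 0 := by
    intro k hk
    rw [mem_range] at hk
    rw [← sum_filter]
    apply sum_le_sum_of_subset_of_nonneg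
    · intro p hp
      rw [mem_filter, Nat.mem_primeFactors] at hp
      rw [mem_filter, mem_Ioo]
      have h3 : p ≤ x1 + Q * k := Nat.le_of_dvd (by omega) hp.1.2.1
      have h4 : Q * k ≤ Q * K := Nat.mul_le_mul_left _ hk.le
      exact ⟨⟨hp.2, by omega⟩, hp.1.1, hp.1.2.1⟩
    · intro p _ _
      positivity
  have h3 := sum_le_sum h2
  rw [sum_comm] at h3
  have h4 : ∑ p ∈ Ioo 64 (B + 1), ∑ k ∈ range K,
      (if p.Prime ∧ p ∣ x1 + Q * k then (1 : ℝ) / p else 0) ≤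
      ∑ p ∈ Ioo 64 (B + 1), ((K : ℝ) * ((p : ℝ) ^ 2)⁻¹ + (p : ℝ)⁻¹) := by
    apply sum_le_sum
    intro p hp
    rw [mem_Ioo] at hp
    have hp0 : (0 : ℝ) < p := by
      have : 0 < p := by omega
      exact_mod_cast this
    rw [← sum_filter, sum_const, nsmul_eq_mul]
    by_cases hpp' : p.Prime ∧ ¬ p ∣ Q
    · obtain ⟨hpp, hpQ⟩ := hpp'
      have e2 := res_card p K hpp.pos ((range K).filter (fun k => p.Prime ∧ p ∣ x1 + Q * k))
        (fun t ht => mem_range.mp (mem_filter.mp ht).1) (by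
          intro s hs t ht
          have hs1 := (mem_filter.mp hs).2.2
          have ht1 := (mem_filter.mp ht).2.2
          have h3 : (x1 + Q * s) ≡ (x1 + Q * t) [MOD p] := by
            rw [Nat.ModEq, Nat.mod_eq_zero_of_dvd hs1, Nat.mod_eq_zero_of_dvd ht1]
          have h4 : Q * s ≡ Q * t [MOD p] := Nat.ModEq.add_left_cancel' x1 h3
          have hcop : Nat.gcd p Q = 1 := (Nat.Prime.coprime_iff_not_dvd hpp).mpr
            hpQ
          exact Nat.ModEq.cancel_left_of_coprime hcop h4)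
      have e3 : ((K / p : ℕ) : ℝ) ≤ (K : ℝ) / p := Nat.cast_div_le
      have e4 : (((range K).filter (fun k => p.Prime ∧ p ∣ x1 + Q * k)).card : ℝ) ≤
          (K : ℝ) / p + 1 := by
        calc (((range K).filter (fun k => p.Prime ∧ p ∣ x1 + Q * k)).card : ℝ) ≤
              ((K / p + 1 : ℕ) : ℝ) := by exact_mod_cast e2
          _ = ((K / p : ℕ) : ℝ) + 1 := by push_cast; rfl
          _ ≤ (K : ℝ) / p + 1 := by linarith
      calc (((range K).filter (fun k => p.Prime ∧ p ∣ x1 + Q * k)).card : ℝ) * (1 / p) ≤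
            ((K : ℝ) / p + 1) * (1 / p) := mul_le_mul_of_nonneg_right e4 (by positivity)
        _ = (K : ℝ) * ((p : ℝ) ^ 2)⁻¹ + (p : ℝ)⁻¹ := by
            field_simp
    · have e2 : (range K).filter (fun k => p.Prime ∧ p ∣ x1 + Q * k) = ∅ := by
        apply filter_eq_empty_iff.mpr
        intro t _ h4
        apply hpp'
        refine ⟨h4.1, ?_⟩
        intro h5
        have h6 : p ∣ x1 := (Nat.dvd_add_left (Dvd.dvd.mul_right h5 t)).mp h4.2
        exact hQ p h4.1 h6 h5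
      rw [e2]
      simp only [card_empty, Nat.cast_zero, zero_mul]
      positivity
  rw [sum_add_distrib, ← mul_sum] at h4
  have e4 : (∑ i ∈ Ioo 64 (B + 1), ((i : ℝ) ^ 2)⁻¹) ≤ 2 / ((64 : ℕ) + 1) :=
    sum_Ioo_inv_sq_le 64 (B + 1)
  have e5 : (∑ i ∈ Ioo 64 (B + 1), ((i : ℝ))⁻¹) ≤ 1 + Real.log B := by
    have e6 := harmonic_le_one_add_log B
    refine le_trans ?_ e6
    rw [harmonic_eq_sum_Icc]
    push_cast
    apply sum_le_sum_of_subset_of_nonneg
    · intro i hi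
      rw [mem_Ioo] at hi
      rw [mem_Icc]
      omega
    · intro i _ _
      positivity
  have e6 : (K : ℝ) * (∑ i ∈ Ioo 64 (B + 1), ((i : ℝ) ^ 2)⁻¹) ≤ K * (2 / 65) := by
    apply mul_le_mul_of_nonneg_left _ hKr.le
    refine e4.trans (le_of_eq ?_)
    norm_num
  have e7 : (K : ℝ) * (2 / 65 + (1 + Real.log B) / K) = K * (2 / 65) + (1 + Real.log B) := by
    field_simp
  linarith


/-- the index `t` survives the sieve -/
def Good' (x b Q t : ℕ) : Prop := ∀ p : ℕ, p.Prime → ¬ p ∣ Q →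
  ¬ p ^ 2 ∣ b + Q * t ∧ ¬ p ^ 2 ∣ x ^ 2 - Q * (b + Q * t) ∧ ¬ p ^ 2 ∣ x ^ 2 + Q * (b + Q * t) ∧
  ¬ (p ∣ x ∧ p ∣ b + Q * t)

open Classical in
theorem good_count' (x b Q T D0 M J : ℕ) (hQ64 : ∀ p : ℕ, p.Prime → p ≤ 64 → p ∣ Q)
    (hQsq : ∀ p : ℕ, p.Prime → p ∣ Q → p ^ 2 ∣ Q)
    (hxQ : ∀ p : ℕ, p.Prime → p ∣ x → ¬ p ∣ Q) (hbQ : ∀ p : ℕ, p.Prime → p ∣ Q → ¬ p ^ 2 ∣ b)
    (hQ0 : 0 < Q) (hD : 0 < D0) (hT : T ≤ D0 ^ 2) (hx0 : 0 < x) (hb1 : x ^ 2 ≤ 8 * (Q * (b - 1)))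
    (hb2 : x ^ 2 ≤ 8 * (x ^ 2 - Q * b - Q ^ 2 * T)) (hb3 : Q * b + Q ^ 2 * T ≤ x ^ 2)
    (h1 : 48 * x ^ 2 < D0 ^ 4) (h2 : 4 * (Q ^ 2 * T) < D0 ^ 2)
    (hM : 512 * (Q ^ 2 * T) * (2 ^ J * D0) ^ 2 ≤ 3 * x ^ 2 * M)
    (h3 : Q ^ 2 * T ≤ 2 * (2 ^ J * D0)) :
    (T : ℝ) ≤ ((range T).filter (fun t => Good' x b Q t)).card +
      3 * (T * (2 / 65) + D0 + (J * ((M + 2) * D0) + (2 * x ^ 2) / (2 ^ J * D0) ^ 2 : ℕ)) +
      (T * (∑ p ∈ x.primeFactors.filter (fun p => 64 < p), (1 : ℝ) / p) +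
      x.primeFactors.card) := by
  have h64 : ∀ p : ℕ, p.Prime → ¬ p ∣ Q → 64 < p := by
    intro p hp hpQ
    by_contra hcon
    push Not at hcon
    exact hpQ (hQ64 p hp hcon)
  have hx2 : 0 < x ^ 2 := by positivity
  set S1 := (range T).filter (fun t => ∃ p : ℕ, p.Prime ∧ 64 < p ∧ p ^ 2 ∣ b + Q * t) with hS1
  set S2 := (range T).filter (fun t => ∃ p : ℕ, p.Prime ∧ 64 < p ∧
    p ^ 2 ∣ x ^ 2 - Q * (b + Q * t)) with hS2
  set S3 := (range T).filter (fun t => ∃ p : ℕ, p.Prime ∧ 64 < p ∧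
    p ^ 2 ∣ x ^ 2 + Q * (b + Q * t)) with hS3
  set S4 := (range T).filter (fun t => ∃ p : ℕ, p.Prime ∧ 64 < p ∧ p ∣ x ∧ p ∣ b + Q * t)
    with hS4
  have hcov : range T ⊆ (range T).filter (fun t => Good' x b Q t) ∪
      (S1 ∪ (S2 ∪ (S3 ∪ S4))) := by
    intro t ht
    by_cases hg : Good' x b Q t
    · exact mem_union_left _ (mem_filter.mpr ⟨ht, hg⟩)
    · apply mem_union_right
      unfold Good' at hg
      push Not at hg
      obtain ⟨p, hp, hpQ, hg⟩ := hg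
      have hp64 := h64 p hp hpQ
      by_cases c1 : p ^ 2 ∣ b + Q * t
      · exact mem_union_left _ (mem_filter.mpr ⟨ht, p, hp, hp64, c1⟩)
      · apply mem_union_right
        by_cases c2 : p ^ 2 ∣ x ^ 2 - Q * (b + Q * t)
        · exact mem_union_left _ (mem_filter.mpr ⟨ht, p, hp, hp64, c2⟩)
        · apply mem_union_right
          by_cases c3 : p ^ 2 ∣ x ^ 2 + Q * (b + Q * t)
          · exact mem_union_left _ (mem_filter.mpr ⟨ht, p, hp, hp64, c3⟩)
          · apply mem_union_right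
            obtain ⟨c4, c5⟩ := hg c1 c2 c3
            exact mem_filter.mpr ⟨ht, p, hp, hp64, c4, c5⟩
  have hc : T ≤ ((range T).filter (fun t => Good' x b Q t)).card +
      (S1.card + (S2.card + (S3.card + S4.card))) := by
    have e1 := card_le_card hcov
    rw [card_range] at e1
    refine e1.trans ((card_union_le _ _).trans ?_)
    apply Nat.add_le_add_left
    refine (card_union_le _ _).trans ?_
    apply Nat.add_le_add_left
    refine (card_union_le _ _).trans ?_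
    apply Nat.add_le_add_left
    exact card_union_le _ _
  have hmono : ∀ t, t < T → Q * t + Q ≤ Q * T := by
    intro t ht
    calc Q * t + Q = Q * (t + 1) := by ring
      _ ≤ Q * T := Nat.mul_le_mul_left _ ht
  have hmono2 : ∀ t, t < T → Q ^ 2 * t + Q ^ 2 ≤ Q ^ 2 * T := by
    intro t ht
    calc Q ^ 2 * t + Q ^ 2 = Q ^ 2 * (t + 1) := by ring
      _ ≤ Q ^ 2 * T := Nat.mul_le_mul_left _ ht
  have hQQ : Q * T ≤ Q ^ 2 * T := by
    apply Nat.mul_le_mul_right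
    nlinarith
  have hQ2pos : 0 < Q ^ 2 := by positivity
  have hexp : ∀ t, Q * (b + Q * t) = Q * b + Q ^ 2 * t := fun t => by ring
  have hdiv : ∀ A : ℕ, A ≤ 2 * x ^ 2 → A / (2 ^ J * D0) ^ 2 ≤ (2 * x ^ 2) / (2 ^ J * D0) ^ 2 :=
    fun A hA => Nat.div_le_div_right hA
  have hMi : ∀ N : ℕ, x ^ 2 ≤ 8 * N → 64 * (Q ^ 2 * T) * (2 ^ J * D0) ^ 2 ≤ 3 * N * M := by
    intro N hN
    have e1 : 3 * x ^ 2 * M ≤ 3 * (8 * N) * M := by
      apply Nat.mul_le_mul_right
      omega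
    have e2 : 8 * (64 * (Q ^ 2 * T) * (2 ^ J * D0) ^ 2) ≤ 8 * (3 * N * M) := by
      calc 8 * (64 * (Q ^ 2 * T) * (2 ^ J * D0) ^ 2) = 512 * (Q ^ 2 * T) * (2 ^ J * D0) ^ 2 := by
            ring
        _ ≤ 3 * x ^ 2 * M := hM
        _ ≤ 3 * (8 * N) * M := e1
        _ = 8 * (3 * N * M) := by ring
    omega
  have hMb : 64 * (Q * T) * (2 ^ J * D0) ^ 2 ≤ 3 * (b - 1) * M := by
    have e1 : 3 * x ^ 2 * M ≤ 3 * (8 * (Q * (b - 1))) * M := by
      apply Nat.mul_le_mul_right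
      omega
    have e2 : (8 * Q) * (64 * (Q * T) * (2 ^ J * D0) ^ 2) ≤ (8 * Q) * (3 * (b - 1) * M) := by
      calc (8 * Q) * (64 * (Q * T) * (2 ^ J * D0) ^ 2) =
            512 * (Q ^ 2 * T) * (2 ^ J * D0) ^ 2 := by ring
        _ ≤ 3 * x ^ 2 * M := hM
        _ ≤ 3 * (8 * (Q * (b - 1))) * M := e1
        _ = (8 * Q) * (3 * (b - 1) * M) := by ring
    exact Nat.le_of_mul_le_mul_left e2 (by positivity)
  have hbpos : 0 < b - 1 := by
    rcases Nat.eq_zero_or_pos (b - 1) with h | h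
    · rw [h] at hb1
      omega
    · exact h
  have hQb : b ≤ Q * b := Nat.le_mul_of_pos_left b hQ0
  -- no square of a prime dividing `Q` divides the forms
  have hv1 : ∀ p : ℕ, p.Prime → p ∣ Q → ∀ t, ¬ p ^ 2 ∣ b + Q * t := by
    intro p hp hpQ t hd
    apply hbQ p hp hpQ
    exact (Nat.dvd_add_left (Dvd.dvd.mul_right (hQsq p hp hpQ) t)).mp hd
  have hv2 : ∀ p : ℕ, p.Prime → p ∣ Q → ∀ t, t < T → ¬ p ^ 2 ∣ x ^ 2 - Q * (b + Q * t) := by
    intro p hp hpQ t ht hd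
    have hd' : p ∣ x ^ 2 - Q * (b + Q * t) := (Dvd.intro_left (p ^ 1) (by ring)).trans hd
    have hle : Q * (b + Q * t) ≤ x ^ 2 := by
      have := hmono2 t ht
      rw [hexp]
      omega
    have h5 : p ∣ Q * (b + Q * t) := Dvd.dvd.mul_right hpQ _
    have h6 : p ∣ x ^ 2 := by
      have := Nat.dvd_add hd' h5
      rwa [Nat.sub_add_cancel hle] at this
    exact hxQ p hp (hp.dvd_of_dvd_pow h6) hpQ
  have hv3 : ∀ p : ℕ, p.Prime → p ∣ Q → ∀ t, ¬ p ^ 2 ∣ x ^ 2 + Q * (b + Q * t) := by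
    intro p hp hpQ t hd
    have hd' : p ∣ x ^ 2 + Q * (b + Q * t) := (Dvd.intro_left (p ^ 1) (by ring)).trans hd
    have h5 : p ∣ Q * (b + Q * t) := Dvd.dvd.mul_right hpQ _
    have h6 : p ∣ x ^ 2 := (Nat.dvd_add_left h5).mp hd'
    exact hxQ p hp (hp.dvd_of_dvd_pow h6) hpQ
  have hQ2 : ∀ p : ℕ, p.Prime → ¬ p ∣ Q → ¬ p ∣ Q ^ 2 := fun p hp h h' =>
    h (hp.dvd_of_dvd_pow h')
  have g1 : (S1.card : ℝ) ≤ T * (2 / 65) + D0 +
      (J * ((M + 2) * D0) + (2 * x ^ 2) / (2 ^ J * D0) ^ 2 : ℕ) := by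
    have := form_bad (b - 1) (Q * T) D0 M J T (fun t => b + Q * t) hbpos hD
      (by
        intro t ht
        have := hmono t ht
        show b - 1 < b + Q * t ∧ b + Q * t ≤ b - 1 + Q * T
        omega)
      (by
        intro p hp hp64 s t _ _ hs ht
        by_cases hpQ : p ∣ Q
        · exact absurd hs (hv1 p hp hpQ s)
        apply canc p Q s t hp hpQ
        apply Nat.ModEq.add_left_cancel' b
        rw [Nat.ModEq, Nat.mod_eq_zero_of_dvd hs, Nat.mod_eq_zero_of_dvd ht])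
      hT (by omega) (by omega) hMb (by omega) S1 (fun t ht => mem_range.mp (mem_filter.mp ht).1)
      (fun t ht => (mem_filter.mp ht).2)
    refine this.trans ?_
    have e := hdiv (b - 1 + Q * T) (by omega)
    have e' : ((J * ((M + 2) * D0) + (b - 1 + Q * T) / (2 ^ J * D0) ^ 2 : ℕ) : ℝ) ≤
        ((J * ((M + 2) * D0) + (2 * x ^ 2) / (2 ^ J * D0) ^ 2 : ℕ) : ℝ) := by
      exact_mod_cast Nat.add_le_add_left e _
    linarith
  have g2 : (S2.card : ℝ) ≤ T * (2 / 65) + D0 +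
      (J * ((M + 2) * D0) + (2 * x ^ 2) / (2 ^ J * D0) ^ 2 : ℕ) := by
    have := form_bad (x ^ 2 - Q * b - Q ^ 2 * T) (Q ^ 2 * T) D0 M J T
      (fun t => x ^ 2 - Q * (b + Q * t))
      (by omega) hD
      (by
        intro t ht
        have := hmono2 t ht
        show x ^ 2 - Q * b - Q ^ 2 * T < x ^ 2 - Q * (b + Q * t) ∧
          x ^ 2 - Q * (b + Q * t) ≤ x ^ 2 - Q * b - Q ^ 2 * T + Q ^ 2 * T
        rw [hexp]
        omega)
      (by
        intro p hp hp64 s t hs' ht' hs ht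
        by_cases hpQ : p ∣ Q
        · exact absurd hs (hv2 p hp hpQ s hs')
        apply canc p (Q ^ 2) s t hp (hQ2 p hp hpQ)
        have q1 := hmono2 s hs'
        have q2 := hmono2 t ht'
        have e3 := hexp s
        have e4 := hexp t
        have e : (x ^ 2 - Q * (b + Q * s)) + Q ^ 2 * s = (x ^ 2 - Q * (b + Q * t)) + Q ^ 2 * t := by
          omega
        have e1 : (x ^ 2 - Q * (b + Q * s)) + Q ^ 2 * s ≡
            (x ^ 2 - Q * (b + Q * s)) + Q ^ 2 * t [MOD p ^ 2] := by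
          rw [e]
          apply Nat.ModEq.add_right
          rw [Nat.ModEq, Nat.mod_eq_zero_of_dvd hs, Nat.mod_eq_zero_of_dvd ht]
        exact Nat.ModEq.add_left_cancel' _ e1)
      hT (by omega) h2 (hMi _ hb2) h3 S2 (fun t ht => mem_range.mp (mem_filter.mp ht).1)
      (fun t ht => (mem_filter.mp ht).2)
    refine this.trans ?_
    have e := hdiv (x ^ 2 - Q * b - Q ^ 2 * T + Q ^ 2 * T) (by omega)
    have e' : ((J * ((M + 2) * D0) + (x ^ 2 - Q * b - Q ^ 2 * T + Q ^ 2 * T) /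
        (2 ^ J * D0) ^ 2 : ℕ) : ℝ) ≤
        ((J * ((M + 2) * D0) + (2 * x ^ 2) / (2 ^ J * D0) ^ 2 : ℕ) : ℝ) := by
      exact_mod_cast Nat.add_le_add_left e _
    linarith
  have g3 : (S3.card : ℝ) ≤ T * (2 / 65) + D0 +
      (J * ((M + 2) * D0) + (2 * x ^ 2) / (2 ^ J * D0) ^ 2 : ℕ) := by
    have := form_bad (x ^ 2 + Q * b - 1) (Q ^ 2 * T) D0 M J T (fun t => x ^ 2 + Q * (b + Q * t))
      (by omega) hD
      (by
        intro t ht
        have := hmono2 t ht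
        show x ^ 2 + Q * b - 1 < x ^ 2 + Q * (b + Q * t) ∧
          x ^ 2 + Q * (b + Q * t) ≤ x ^ 2 + Q * b - 1 + Q ^ 2 * T
        rw [hexp]
        omega)
      (by
        intro p hp hp64 s t _ _ hs ht
        by_cases hpQ : p ∣ Q
        · exact absurd hs (hv3 p hp hpQ s)
        apply canc p (Q ^ 2) s t hp (hQ2 p hp hpQ)
        apply Nat.ModEq.add_left_cancel' (x ^ 2 + Q * b)
        have e1 : x ^ 2 + Q * b + Q ^ 2 * s = x ^ 2 + Q * (b + Q * s) := by ring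
        have e2 : x ^ 2 + Q * b + Q ^ 2 * t = x ^ 2 + Q * (b + Q * t) := by ring
        rw [e1, e2, Nat.ModEq, Nat.mod_eq_zero_of_dvd hs, Nat.mod_eq_zero_of_dvd ht])
      hT (by omega) h2 (hMi _ (by omega)) h3 S3 (fun t ht => mem_range.mp (mem_filter.mp ht).1)
      (fun t ht => (mem_filter.mp ht).2)
    refine this.trans ?_
    have e := hdiv (x ^ 2 + Q * b - 1 + Q ^ 2 * T) (by omega)
    have e' : ((J * ((M + 2) * D0) + (x ^ 2 + Q * b - 1 + Q ^ 2 * T) / (2 ^ J * D0) ^ 2 : ℕ) : ℝ) ≤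
        ((J * ((M + 2) * D0) + (2 * x ^ 2) / (2 ^ J * D0) ^ 2 : ℕ) : ℝ) := by
      exact_mod_cast Nat.add_le_add_left e _
    linarith
  have g4 := gcd_bad' x b Q T hxQ S4 (fun t ht => mem_range.mp (mem_filter.mp ht).1)
    (fun t ht => (mem_filter.mp ht).2) (by omega)
  have hc' : (T : ℝ) ≤ ((range T).filter (fun t => Good' x b Q t)).card +
      (S1.card + (S2.card + (S3.card + S4.card))) := by exact_mod_cast hc
  linarith

end Pool.Agent.TH999.CNM
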