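import Pool.Agent.TH999.CNM.Par

set_option autoImplicit false
set_option maxHeartbeats 4000000

/-! # Squarefree congruent numbers in short intervals, uniformly in the residue class -/

namespace Pool.Agent.TH999.CNM

open Finset Filter Asymptotics Pool.Agent.TH827.CN

lemma cs_finite (q a : ℕ) (X H : ℝ) : (CSet' q a X H).Finite := by
  apply (Set.finite_Iic ⌊X + H⌋₊).subset
  intro n hn
  exact Nat.le_floor hn.2.1

/-- uniform version in the modulus -/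
theorem unif (δ : ℝ) (hδ0 : 0 < δ) (hδ1 : δ ≤ 1 / 24) : ∀ᶠ ξ : ℝ in atTop, ∀ m b0 Q : ℕ,
    Q = m ^ 2 → 0 < m → (∀ p : ℕ, p.Prime → p ≤ 64 → p ∣ m) → Squarefree b0 →
    (Q : ℝ) ≤ ξ ^ (9 / 10 * δ) → ∃ A : Finset ℕ, ξ ^ (1 / 2 : ℝ) ≤ A.card ∧
      ∀ n ∈ A, n ∈ CSet' Q b0 (2 * ξ ^ 6 / (3 * √3) / Q)
        (261 * (Q : ℝ) ^ (3 / 2 : ℝ) * ξ ^ (4 + 2 * (19 / 10 * δ))) := by
  set η : ℝ := 19 / 10 * δ with hη
  set c : ℝ := 9 / 10 * δ with hc
  have hη0 : 0 < η := by positivity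
  have hc0 : 0 < c := by positivity
  filter_upwards [eventually_ge_atTop 100, ev_pow c 1 8 (by linarith),
    ev_pow (c + η) 1 1000 (by linarith),
    ev_pow (4 * c + (1 + 2 * η)) 3 4 (by linarith),
    ev_pow (2 * c + (1 / 2 + η)) 1 1 (by linarith),
    ev_pow (1 / 2) (3 / 4 - η / 2) 7 (by linarith),
    ev_pow (2 * c + (1 / 2 + η)) (3 / 4 - η / 2) 1 (by linarith),
    ev_log (2 * c + 1 / 2) (1 / 2 + η) (2000 * 700003) (by norm_num) (by linarith),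
    ev_log 0 η 100 (by norm_num) hη0,
    ev_pow 0 η 100 hη0] with
    ξ h100 g1 g2 g3 g4 g5 g6 g7 g8 g9
  intro m b0 Q hQm hm0 hm64 hb0 hQv
  have hξ0 : (0 : ℝ) < ξ := by linarith
  have hQ0 : 0 < Q := by rw [hQm]; positivity
  have hQr : (1 : ℝ) ≤ Q := by exact_mod_cast hQ0
  have hQp : (0 : ℝ) < Q := by linarith
  have hv0 : 0 < ξ ^ c := by positivity
  have pw : ∀ k : ℕ, (ξ ^ c) ^ k = ξ ^ (k * c) := by
    intro k
    rw [← Real.rpow_natCast (ξ ^ c) k, ← Real.rpow_mul hξ0.le]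
    congr 1
    ring
  have hQk : ∀ k : ℕ, (Q : ℝ) ^ k ≤ ξ ^ (k * c) := by
    intro k
    rw [← pw]
    exact pow_le_pow_left₀ hQp.le hQv k
  have hQ2 : (Q : ℝ) ^ 2 ≤ ξ ^ (2 * c) := by
    have := hQk 2
    push_cast at this
    exact this
  have hQ4 : ((Q : ℝ) ^ 2) ^ 2 ≤ ξ ^ (4 * c) := by
    have := hQk 4
    push_cast at this
    calc ((Q : ℝ) ^ 2) ^ 2 = (Q : ℝ) ^ 4 := by ring
      _ ≤ ξ ^ (4 * c) := this
  have hξ1 : (1 : ℝ) ≤ ξ := by linarith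
  have hlog0 : 0 ≤ Real.log ξ := Real.log_nonneg hξ1
  rw [Real.rpow_add hξ0 c η] at g2
  rw [Real.rpow_add hξ0 (4 * c) (1 + 2 * η)] at g3
  rw [Real.rpow_add hξ0 (2 * c) (1 / 2 + η)] at g4 g6
  rw [Real.rpow_add hξ0 (2 * c) (1 / 2)] at g7
  have hC1 : (2 + 3 * Q : ℝ) ≤ 5 * Q := by linarith
  obtain ⟨A, hA1, hA2⟩ := param_core m b0 Q hQm hm0 hm64 hb0 η hη0 (2 + 3 * Q) rfl
    (700000 * Q ^ 2) rfl ξ h100
    (by
      rw [Real.rpow_one] at g1
      linarith)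
    (by
      refine le_trans ?_ g2
      calc 200 * (2 + 3 * (Q : ℝ)) * ξ ^ η ≤ 200 * (5 * ξ ^ c) * ξ ^ η := by
            apply mul_le_mul_of_nonneg_right _ (by positivity)
            linarith
        _ = 1000 * (ξ ^ c * ξ ^ η) := by ring)
    (by
      refine le_trans ?_ g3
      calc 4 * ((Q : ℝ) ^ 2) ^ 2 * ξ ^ (1 + 2 * η) ≤ 4 * ξ ^ (4 * c) * ξ ^ (1 + 2 * η) := by
            apply mul_le_mul_of_nonneg_right _ (by positivity)
            linarith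
        _ = 4 * (ξ ^ (4 * c) * ξ ^ (1 + 2 * η)) := by ring)
    (by
      refine le_trans ?_ g4
      rw [one_mul]
      exact mul_le_mul_of_nonneg_right hQ2 (by positivity))
    g5
    (by
      refine le_trans ?_ g6
      rw [one_mul]
      exact mul_le_mul_of_nonneg_right hQ2 (by positivity))
    (by
      refine le_trans ?_ g7
      have hle : (((700000 * Q ^ 2 : ℕ) : ℝ) + 3) ≤ 700003 * ξ ^ (2 * c) := by
        push_cast
        have h1 : (1 : ℝ) ≤ (Q : ℝ) ^ 2 := one_le_pow₀ hQr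
        linarith
      calc 2000 * (((700000 * Q ^ 2 : ℕ) : ℝ) + 3) * (1 + Real.log ξ) * ξ ^ (1 / 2 : ℝ) ≤
            2000 * (700003 * ξ ^ (2 * c)) * (1 + Real.log ξ) * ξ ^ (1 / 2 : ℝ) := by
            apply mul_le_mul_of_nonneg_right _ (by positivity)
            apply mul_le_mul_of_nonneg_right _ (by positivity)
            linarith
        _ = 2000 * 700003 * (1 + Real.log ξ) * (ξ ^ (2 * c) * ξ ^ (1 / 2 : ℝ)) := by ring)
    g8 g9
  refine ⟨A, hA1, ?_⟩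
  intro n hn
  obtain ⟨q1, q2, q3⟩ := hA2 n hn
  refine ⟨q1, q2.trans ?_, q3⟩
  have hs : √(2 + 3 * (Q : ℝ)) ≤ 9 / 4 * √Q := by
    have h1 : (9 / 4 * √Q : ℝ) = √((9 / 4) ^ 2 * Q) := by
      rw [Real.sqrt_mul (by norm_num), Real.sqrt_sq (by norm_num)]
    rw [h1]
    apply Real.sqrt_le_sqrt
    linarith
  have hq : √(Q : ℝ) * Q = (Q : ℝ) ^ (3 / 2 : ℝ) := by
    rw [Real.sqrt_eq_rpow]
    nth_rewrite 2 [← Real.rpow_one (Q : ℝ)]
    rw [← Real.rpow_add hQp]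
    norm_num
  have h1 : 116 * √(2 + 3 * (Q : ℝ)) * Q * ξ ^ (4 + 2 * η) ≤
      261 * (Q : ℝ) ^ (3 / 2 : ℝ) * ξ ^ (4 + 2 * η) := by
    rw [← hq]
    calc 116 * √(2 + 3 * (Q : ℝ)) * Q * ξ ^ (4 + 2 * η) ≤
          116 * (9 / 4 * √Q) * Q * ξ ^ (4 + 2 * η) := by
          apply mul_le_mul_of_nonneg_right _ (by positivity)
          apply mul_le_mul_of_nonneg_right _ (by positivity)
          linarith
      _ = 261 * (√Q * Q) * ξ ^ (4 + 2 * η) := by ring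
  linarith

/-- **Main theorem**: for `2/3 < θ ≤ 17/24`, large `X`, every modulus `M ≤ X ^ ((θ - 2/3) / 14)` and
every squarefree `k`, at least `X ^ (1/12)` squarefree congruent numbers `n ≡ k` modulo `8 M` lie
in `[X, X + X ^ θ]`. -/
theorem main_unif (θ : ℝ) (hθ : 2 / 3 < θ) (hθ1 : θ ≤ 17 / 24) : ∃ X₀ : ℝ, ∀ X : ℝ, X₀ ≤ X →
    ∀ M : ℕ, 0 < M → (M : ℝ) ≤ X ^ ((θ - 2 / 3) / 14) → ∀ k : ℕ, Squarefree k →
      X ^ (1 / 12 : ℝ) ≤ ((CSet' (8 * M) k X (X ^ θ)).ncard : ℝ) := by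
  set δ : ℝ := θ - 2 / 3 with hδ
  have hδ0 : 0 < δ := by linarith
  have hδ1 : δ ≤ 1 / 24 := by linarith
  have hev := unif δ hδ0 hδ1
  rw [eventually_atTop] at hev
  obtain ⟨ξ0, hξ0⟩ := hev
  set F : ℕ := Nat.factorial 64 with hF
  have hF0 : 0 < F := Nat.factorial_pos _
  have hF8 : 8 ∣ F := Nat.dvd_factorial (by norm_num) (by norm_num)
  set κ : ℝ := δ / 14 with hκ
  have hκ0 : 0 < κ := by positivity
  have hexpo : (3 / 2) * (3 / 20 * δ) + (1 + 3 / 20 * δ) * ((4 + 2 * (19 / 10 * δ)) / 6) < θ := by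
    have h1 : θ = 2 / 3 + δ := by rw [hδ]; ring
    rw [h1]
    nlinarith
  have hall : ∀ᶠ X : ℝ in atTop, ∀ M : ℕ, 0 < M → (M : ℝ) ≤ X ^ κ → ∀ k : ℕ, Squarefree k →
      X ^ (1 / 12 : ℝ) ≤ ((CSet' (8 * M) k X (X ^ θ)).ncard : ℝ) := by
    filter_upwards [eventually_ge_atTop 1,
      (tendsto_rpow_atTop (by norm_num : (0 : ℝ) < 1 / 6)).eventually_ge_atTop ξ0,
      ev_pow (2 * κ) (3 / 20 * δ) ((F : ℝ) ^ 2) (by rw [hκ]; linarith),
      ev_pow ((3 / 2) * (3 / 20 * δ) + (1 + 3 / 20 * δ) * ((4 + 2 * (19 / 10 * δ)) / 6)) θ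
        (261 * 3) hexpo] with X hX1 hXξ hXQ hXθ
    intro M hM0 hMX k hk
    have hX0 : 0 < X := by linarith
    set m : ℕ := M * F with hm
    have hm0 : 0 < m := Nat.mul_pos hM0 hF0
    set Q : ℕ := m ^ 2 with hQm
    have hQ0 : 0 < Q := by positivity
    have hQr : (1 : ℝ) ≤ Q := by exact_mod_cast hQ0
    have hQp : (0 : ℝ) < Q := by linarith
    have hm64 : ∀ p : ℕ, p.Prime → p ≤ 64 → p ∣ m :=
      fun p hp hp64 => Dvd.dvd.mul_left (Nat.dvd_factorial hp.pos hp64) _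
    have hQX : (Q : ℝ) ≤ X ^ (3 / 20 * δ) := by
      refine le_trans ?_ hXQ
      have e1 : (Q : ℝ) = (F : ℝ) ^ 2 * (M : ℝ) ^ 2 := by
        rw [hQm, hm]; push_cast; ring
      have e2 : (M : ℝ) ^ 2 ≤ (X ^ κ) ^ 2 := pow_le_pow_left₀ (Nat.cast_nonneg _) hMX 2
      have e3 : (X ^ κ) ^ 2 = X ^ (2 * κ) := by
        rw [← Real.rpow_natCast (X ^ κ) 2, ← Real.rpow_mul hX0.le]
        congr 1
        push_cast
        ring
      rw [e1, ← e3]
      exact mul_le_mul_of_nonneg_left e2 (by positivity)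
    set Y : ℝ := 3 * √3 * (Q * X) / 2 with hY
    obtain ⟨hs1, hs2⟩ := sqrt3_bounds
    have hs0 : (0 : ℝ) < √3 := by positivity
    have hXQ' : X ≤ Q * X := le_mul_of_one_le_left hX0.le hQr
    have hY0 : 0 < Y := by positivity
    have hYX : X ≤ Y := by
      rw [hY]
      nlinarith
    have hY3 : Y ≤ 3 * (Q * X) := by
      rw [hY]
      nlinarith
    set ξ : ℝ := Y ^ (1 / 6 : ℝ) with hξ
    have hξp : 0 < ξ := by positivity
    have hξ6 : ξ ^ 6 = Y := by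
      rw [hξ, ← Real.rpow_natCast (Y ^ (1 / 6 : ℝ)) 6, ← Real.rpow_mul hY0.le]
      norm_num
    have hξX : X ^ (1 / 6 : ℝ) ≤ ξ := Real.rpow_le_rpow hX0.le hYX (by norm_num)
    have hQξ : (Q : ℝ) ≤ ξ ^ (9 / 10 * δ) := by
      refine hQX.trans ?_
      have e1 : X ^ (3 / 20 * δ) = (X ^ (1 / 6 : ℝ)) ^ (9 / 10 * δ) := by
        rw [← Real.rpow_mul hX0.le]
        congr 1
        ring
      rw [e1]
      exact Real.rpow_le_rpow (by positivity) hξX (by positivity)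
    obtain ⟨A, hA1, hA2⟩ := hξ0 ξ (hXξ.trans hξX) m k Q hQm hm0 hm64 hk hQξ
    have hXeq : 2 * ξ ^ 6 / (3 * √3) / Q = X := by
      rw [hξ6, hY]
      field_simp
    rw [hXeq] at hA2
    have hpow : 261 * (Q : ℝ) ^ (3 / 2 : ℝ) * ξ ^ (4 + 2 * (19 / 10 * δ)) ≤ X ^ θ := by
      refine le_trans ?_ hXθ
      have e1 : ξ ^ (4 + 2 * (19 / 10 * δ)) = Y ^ ((4 + 2 * (19 / 10 * δ)) / 6) := by
        rw [hξ, ← Real.rpow_mul hY0.le]
        congr 1
        ring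
      have e0 : Y ≤ 3 * X ^ (1 + 3 / 20 * δ) := by
        have e : X ^ (1 + 3 / 20 * δ) = X * X ^ (3 / 20 * δ) := by
          rw [Real.rpow_add hX0, Real.rpow_one]
        rw [e]
        have := mul_le_mul_of_nonneg_right hQX hX0.le
        linarith
      have e2 : Y ^ ((4 + 2 * (19 / 10 * δ)) / 6) ≤
          (3 * X ^ (1 + 3 / 20 * δ)) ^ ((4 + 2 * (19 / 10 * δ)) / 6) :=
        Real.rpow_le_rpow hY0.le e0 (by positivity)
      have e3 : (3 * X ^ (1 + 3 / 20 * δ)) ^ ((4 + 2 * (19 / 10 * δ)) / 6) =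
          3 ^ ((4 + 2 * (19 / 10 * δ)) / 6) *
            X ^ ((1 + 3 / 20 * δ) * ((4 + 2 * (19 / 10 * δ)) / 6)) := by
        rw [Real.mul_rpow (by norm_num) (by positivity), ← Real.rpow_mul hX0.le]
      have e4 : (3 : ℝ) ^ ((4 + 2 * (19 / 10 * δ)) / 6) ≤ 3 ^ (1 : ℝ) :=
        Real.rpow_le_rpow_of_exponent_le (by norm_num) (by linarith)
      rw [Real.rpow_one] at e4
      have e5 : (Q : ℝ) ^ (3 / 2 : ℝ) ≤ X ^ ((3 / 2) * (3 / 20 * δ)) := by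
        have e6 : X ^ ((3 / 2) * (3 / 20 * δ)) = (X ^ (3 / 20 * δ)) ^ (3 / 2 : ℝ) := by
          rw [← Real.rpow_mul hX0.le]
          congr 1
          ring
        rw [e6]
        exact Real.rpow_le_rpow hQp.le hQX (by norm_num)
      rw [Real.rpow_add hX0, e1]
      have e7 : Y ^ ((4 + 2 * (19 / 10 * δ)) / 6) ≤
          3 * X ^ ((1 + 3 / 20 * δ) * ((4 + 2 * (19 / 10 * δ)) / 6)) := by
        refine e2.trans ?_
        rw [e3]
        exact mul_le_mul_of_nonneg_right e4 (by positivity)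
      calc 261 * (Q : ℝ) ^ (3 / 2 : ℝ) * Y ^ ((4 + 2 * (19 / 10 * δ)) / 6) ≤
            261 * X ^ ((3 / 2) * (3 / 20 * δ)) *
              (3 * X ^ ((1 + 3 / 20 * δ) * ((4 + 2 * (19 / 10 * δ)) / 6))) := by
            apply mul_le_mul _ e7 (by positivity) (by positivity)
            exact mul_le_mul_of_nonneg_left e5 (by norm_num)
        _ = 261 * 3 * (X ^ ((3 / 2) * (3 / 20 * δ)) *
              X ^ ((1 + 3 / 20 * δ) * ((4 + 2 * (19 / 10 * δ)) / 6))) := by ring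
    have h8M : 8 * M ∣ Q := by
      rw [hQm, hm]
      obtain ⟨c, hc⟩ := hF8
      rw [hc]
      exact ⟨8 * M * c ^ 2, by ring⟩
    have hsub : (A : Set ℕ) ⊆ CSet' (8 * M) k X (X ^ θ) := by
      intro n hn
      obtain ⟨q1, q2, q3, q4, q5⟩ := hA2 n hn
      exact ⟨q1, q2.trans (by linarith), q3, q4.of_dvd h8M, q5⟩
    have hcard : A.card ≤ (CSet' (8 * M) k X (X ^ θ)).ncard := by
      rw [← Set.ncard_coe_finset]
      exact Set.ncard_le_ncard hsub (cs_finite _ _ _ _)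
    have h12 : X ^ (1 / 12 : ℝ) ≤ ξ ^ (1 / 2 : ℝ) := by
      have e1 : X ^ (1 / 12 : ℝ) = (X ^ (1 / 6 : ℝ)) ^ (1 / 2 : ℝ) := by
        rw [← Real.rpow_mul hX0.le]
        norm_num
      rw [e1]
      exact Real.rpow_le_rpow (by positivity) hξX (by norm_num)
    calc X ^ (1 / 12 : ℝ) ≤ ξ ^ (1 / 2 : ℝ) := h12
      _ ≤ A.card := hA1
      _ ≤ _ := by exact_mod_cast hcard
  rw [eventually_atTop] at hall
  obtain ⟨X₀, hX₀⟩ := hall
  exact ⟨X₀, hX₀⟩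

end Pool.Agent.TH999.CNM
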